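import Pool.Agent.N479.CL.Words

set_option autoImplicit false

/-! # Rearrangements of words are joined by steps of squared length 2 -/

namespace Pool.Agent.N479.CL

open Finset Pool.Agent.N479.ER

lemma cl_perm {Pos A : Type} [Fintype Pos] (z : Pos → A) (ρ : Equiv.Perm Pos) :
    cl (fun p => z (ρ p)) = cl z := by
  have h1 : Multiset.map ρ (Finset.univ : Finset Pos).val = (Finset.univ : Finset Pos).val :=
    Multiset.map_univ_val_equiv ρ
  unfold cl
  conv_rhs => rw [← h1]
  rw [Multiset.map_map]
  rfl

lemma cl_eq {Pos A : Type} [Fintype Pos] {z z' : Pos → A} (h : cl z = cl z') :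
    ∃ σ : Equiv.Perm Pos, ∀ p, z' (σ p) = z p := by
  classical
  have hc : ∀ a, Fintype.card {p // z p = a} = Fintype.card {p // z' p = a} := by
    intro a
    have h1 := congrArg (Multiset.count a) h
    unfold cl at h1
    rw [Multiset.count_map, Multiset.count_map] at h1
    rw [Fintype.card_subtype, Fintype.card_subtype]
    have e : ∀ w : Pos → A, ((Finset.univ.filter (fun p => w p = a)).card)
        = Multiset.card (Multiset.filter (fun p => a = w p) (Finset.univ : Finset Pos).val) := by
      intro w
      rw [Finset.card_def, Finset.filter_val]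
      congr 1
      refine Multiset.filter_congr fun p _ => ?_
      exact eq_comm
    rw [e z, e z', h1]
  let e : ∀ a, {p // z p = a} ≃ {p // z' p = a} := fun a => Fintype.equivOfCardEq (hc a)
  exact ⟨Equiv.ofFiberEquiv e, fun p => Equiv.ofFiberEquiv_map e p⟩

/-- the larger alphabet -/
abbrev Alph (A : Type) : Type := A ⊕ (A × A × Bool)

/-- the tail positions -/
abbrev Tail (A : Type) : Type := (A × A) × Fin 3

/-- values of the letters of the larger alphabet -/
noncomputable def aval {A : Type} (val : A → ℝ) (s : ℝ) : Alph A → ℝ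
  | Sum.inl a => val a
  | Sum.inr (_, _, false) => 0
  | Sum.inr (a, b, true) => √(1 / s - (val a - val b) ^ 2)

/-- the tail of the letters -/
def tl {A : Type} : Tail A → Alph A := fun t =>
  if t.2 = 0 then Sum.inl t.1.1 else if t.2 = 1 then Sum.inr (t.1.1, t.1.2, false)
    else Sum.inr (t.1.1, t.1.2, true)

/-- a word with the tail -/
def ext {Pos A : Type} (z : Pos → A) : Pos ⊕ Tail A → Alph A :=
  Sum.elim (fun p => Sum.inl (z p)) tl

lemma wd_ext {Pos A : Type} [Fintype Pos] [Fintype A] (val : A → ℝ) (s : ℝ) (z z' : Pos → A) :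
    wd (aval val s) s (ext z) (ext z') = wd val s z z' := by
  unfold wd
  rw [Fintype.sum_sum_type]
  simp [ext, aval]

/-- the word between a word and the word with two letters exchanged -/
def mid {Pos A : Type} [DecidableEq Pos] [DecidableEq A] (z : Pos → A) (j : Pos) (a b : A) :
    Pos ⊕ Tail A → Alph A :=
  Sum.elim (fun p => Sum.inl (if p = j then a else z p))
    (fun t => if t.1 = (a, b) then
      (if t.2 = 0 then Sum.inl b else if t.2 = 1 then Sum.inr (a, b, true)
        else Sum.inr (a, b, false)) else tl t)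

lemma mid_cl {Pos A : Type} [Fintype Pos] [Fintype A] [DecidableEq Pos] [DecidableEq A]
    (z : Pos → A) (j : Pos) (a b : A) (hj : z j = b) : cl (mid z j a b) = cl (ext z) := by
  let ρ : Equiv.Perm (Pos ⊕ Tail A) :=
    (Equiv.swap (Sum.inl j) (Sum.inr ((a, b), 0))) *
      (Equiv.swap (Sum.inr ((a, b), 1)) (Sum.inr ((a, b), 2)))
  rw [← cl_perm (ext z) ρ]
  congr 1
  funext p
  rcases p with p | ⟨⟨c, d⟩, k⟩
  · have h1 : (Equiv.swap (Sum.inr ((a, b), 1) : Pos ⊕ Tail A) (Sum.inr ((a, b), 2))) (Sum.inl p)
        = Sum.inl p := Equiv.swap_apply_of_ne_of_ne (by simp) (by simp)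
    simp only [ρ, Equiv.Perm.mul_apply, h1]
    by_cases hp : p = j
    · subst hp
      rw [Equiv.swap_apply_left]
      simp [mid, ext, tl]
    · rw [Equiv.swap_apply_of_ne_of_ne (by simpa using hp) (by simp)]
      simp [mid, ext, hp]
  · by_cases hcd : (c, d) = (a, b)
    · obtain ⟨rfl, rfl⟩ := Prod.mk.inj hcd
      fin_cases k
      · simp only [ρ, Equiv.Perm.mul_apply]
        rw [Equiv.swap_apply_of_ne_of_ne (a := (Sum.inr ((c, d), 1) : Pos ⊕ Tail A))
          (by simp) (by simp)]
        simp only [Fin.zero_eta, Fin.isValue]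
        rw [Equiv.swap_apply_right]
        simp [mid, ext, hj]
      · simp only [ρ, Equiv.Perm.mul_apply]
        simp only [Fin.mk_one, Fin.isValue]
        rw [Equiv.swap_apply_left]
        rw [Equiv.swap_apply_of_ne_of_ne (by simp) (by simp)]
        simp [mid, ext, tl]
      · simp only [ρ, Equiv.Perm.mul_apply]
        simp only [Fin.reduceFinMk, Fin.isValue]
        rw [Equiv.swap_apply_right]
        rw [Equiv.swap_apply_of_ne_of_ne (by simp) (by simp)]
        simp [mid, ext, tl]
    · simp only [ρ, Equiv.Perm.mul_apply]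
      have n : ∀ k', (Sum.inr ((c, d), k) : Pos ⊕ Tail A) ≠ Sum.inr ((a, b), k') := by
        intro k' e
        exact hcd (congrArg Prod.fst (Sum.inr.inj e))
      rw [Equiv.swap_apply_of_ne_of_ne (n _) (n _)]
      rw [Equiv.swap_apply_of_ne_of_ne (by simp) (n _)]
      simp [mid, ext, hcd]

lemma mid_tail {A : Type} [Fintype A] [DecidableEq A] (val : A → ℝ) (s : ℝ) (a b : A)
    (hs : (val a - val b) ^ 2 ≤ 1 / s) :
    ∑ t : Tail A, (aval val s (tl t) - aval val s (if t.1 = (a, b) then
      (if t.2 = 0 then Sum.inl b else if t.2 = 1 then Sum.inr (a, b, true)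
        else Sum.inr (a, b, false)) else tl t)) ^ 2
      = (val a - val b) ^ 2 + 2 * (1 / s - (val a - val b) ^ 2) := by
  rw [Fintype.sum_prod_type, Finset.sum_eq_single (a, b)]
  · rw [Fin.sum_univ_three]
    have h1 : √(1 / s - (val a - val b) ^ 2) ^ 2 = 1 / s - (val a - val b) ^ 2 :=
      Real.sq_sqrt (by linarith)
    simp only [tl, aval, if_true, Fin.isValue, Fin.reduceEq, if_false, zero_sub, sub_zero,
      one_ne_zero, even_two, Even.neg_pow]
    rw [h1]
    ring
  · intro x _ hx
    simp [hx]
  · intro h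
    exact absurd (Finset.mem_univ _) h

lemma mid_dist {Pos A : Type} [Fintype Pos] [Fintype A] [DecidableEq Pos] [DecidableEq A]
    (val : A → ℝ) (s : ℝ) (hs0 : 0 < s) (z : Pos → A) (i j : Pos) (hij : i ≠ j)
    (hs : (val (z i) - val (z j)) ^ 2 ≤ 1 / s) :
    wd (aval val s) s (ext z) (mid z j (z i) (z j)) = 2 ∧
      wd (aval val s) s (ext (fun p => z (Equiv.swap i j p))) (mid z j (z i) (z j)) = 2 := by
  have ht := mid_tail val s (z i) (z j) hs
  constructor
  · unfold wd
    rw [Fintype.sum_sum_type]
    simp only [ext, mid, Sum.elim_inl, Sum.elim_inr]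
    rw [ht, Finset.sum_eq_single j]
    · simp only [if_true, aval]
      field_simp
      ring
    · intro p _ hp
      simp [hp]
    · intro h
      exact absurd (Finset.mem_univ _) h
  · unfold wd
    rw [Fintype.sum_sum_type]
    simp only [ext, mid, Sum.elim_inl, Sum.elim_inr]
    rw [ht, Finset.sum_eq_single i]
    · simp only [Equiv.swap_apply_left, hij, if_false, aval]
      field_simp
      ring
    · intro p _ hp
      by_cases hpj : p = j
      · subst hpj
        simp
      · rw [Equiv.swap_apply_of_ne_of_ne hp hpj]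
        simp [hpj]
    · intro h
      exact absurd (Finset.mem_univ _) h

/-- words of the same class get the same colour -/
theorem chain {Pos A C ι : Type} [Fintype Pos] [Fintype A] (val : A → ℝ)
    (s : ℝ) (hs0 : 0 < s) (hs : ∀ a b, (val a - val b) ^ 2 ≤ 1 / s)
    (c : (ι → ℝ) → C) (f : (Pos ⊕ Tail A → Alph A) → ι → ℝ)
    (hf : ∀ x y, cl x = cl y → wd (aval val s) s x y = 2 → c (f x) = c (f y))
    (z z' : Pos → A) (hz : cl z = cl z') : c (f (ext z)) = c (f (ext z')) := by
  classical
  have swp : ∀ (z : Pos → A) (i j : Pos), i ≠ j →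
      c (f (ext z)) = c (f (ext (fun p => z (Equiv.swap i j p)))) := by
    intro z i j hij
    obtain ⟨d1, d2⟩ := mid_dist val s hs0 z i j hij (hs _ _)
    have e1 := mid_cl z j (z i) (z j) rfl
    have e2 : cl (ext (fun p => z (Equiv.swap i j p))) = cl (ext z) := by
      have : ext (fun p => z (Equiv.swap i j p))
          = fun p => ext z ((Equiv.sumCongr (Equiv.swap i j) (Equiv.refl (Tail A))) p) := by
        funext p
        rcases p with p | t <;> rfl
      rw [this, cl_perm]
    have h1 := hf _ _ e1.symm d1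
    have h2 := hf _ _ (e2.trans e1.symm) d2
    exact h1.trans h2.symm
  have key : ∀ σ : Equiv.Perm Pos, ∀ z : Pos → A,
      c (f (ext z)) = c (f (ext (fun p => z (σ p)))) := by
    intro σ
    refine Equiv.Perm.swap_induction_on (motive := fun σ => ∀ z : Pos → A,
      c (f (ext z)) = c (f (ext (fun p => z (σ p))))) σ ?_ ?_
    · intro z
      rfl
    · intro g i j hij ih z
      have h1 := swp z i j hij
      have h2 := ih (fun p => z (Equiv.swap i j p))
      exact h1.trans h2
  obtain ⟨σ, hσ⟩ := cl_eq hz
  have h1 := key σ z'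
  have h2 : (fun p => z' (σ p)) = z := by
    funext p
    exact hσ p
  rw [h2] at h1
  exact h1.symm

/-- every colouring without rainbow triples has a copy of the words in which the colour is
determined by the multiset of the letters -/
theorem types {Pos A C : Type} [Fintype Pos] [Nonempty Pos] [Fintype A] [Nonempty A] (val : A → ℝ)
    (s : ℝ) (hs0 : 0 < s) (hs : ∀ a b, (val a - val b) ^ 2 ≤ 1 / s) :
    ∃ (ι : Type) (_ : Fintype ι), ∀ c : (ι → ℝ) → C, NoRb c →
      ∃ f : (Pos → A) → ι → ℝ, (∀ x y, sq (f x) (f y) = wd val s x y) ∧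
        ∀ x y, cl x = cl y → c (f x) = c (f y) := by
  obtain ⟨ι, i, H⟩ := classes (C := C) (wd (Pos := Pos ⊕ Tail A) (aval val s) s) cl
    (words_good (Pos := Pos ⊕ Tail A) (aval val s) s hs0.le)
  refine ⟨ι, i, fun c hc => ?_⟩
  obtain ⟨f, df, hf⟩ := H c hc
  exact ⟨fun z => f (ext z), fun x y => by rw [df, wd_ext],
    fun x y hxy => chain val s hs0 hs c f hf x y hxy⟩

end Pool.Agent.N479.CL
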