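import Pool.Agent.N479.CL.Chain

set_option autoImplicit false

/-! # Three collinear points at distances 1, 1, 2 -/

namespace Pool.Agent.N479.CL

open Finset Pool.Agent.N479.ER

/-- the word of a vector: three copies and three reflected copies -/
def wv (X : Fin 10 → Fin 9) : Fin 6 × Fin 10 → Fin 9 := fun p =>
  if (p.1 : ℕ) % 2 = 0 then X p.2 else Fin.rev (X p.2)

/-- the values of the letters -/
noncomputable def vl (a : Fin 9) : ℝ := ((a : ℕ) : ℝ) - 4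

/-- squared distance of integer vectors -/
def isd (X Y : Fin 10 → Fin 9) : ℤ := ∑ j, (((X j : ℕ) : ℤ) - ((Y j : ℕ) : ℤ)) ^ 2

lemma vl_rev (a : Fin 9) : vl (Fin.rev a) = - vl a := by
  unfold vl
  have h : ((Fin.rev a : Fin 9) : ℕ) + (a : ℕ) = 8 := by
    rw [Fin.val_rev]
    omega
  have h' : (((Fin.rev a : Fin 9) : ℕ) : ℝ) + ((a : ℕ) : ℝ) = 8 := by exact_mod_cast h
  linarith

lemma wd_wv (X Y : Fin 10 → Fin 9) :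
    wd vl (1 / 72) (wv X) (wv Y) = ((isd X Y : ℤ) : ℝ) / 12 := by
  have h0 : ∀ p : Fin 6 × Fin 10, (vl (wv X p) - vl (wv Y p)) ^ 2
      = (((X p.2 : ℕ) : ℝ) - ((Y p.2 : ℕ) : ℝ)) ^ 2 := by
    intro p
    unfold wv
    split_ifs
    · unfold vl
      ring
    · rw [vl_rev, vl_rev]
      unfold vl
      ring
  unfold wd
  rw [Finset.sum_congr rfl fun p _ => h0 p, Fintype.sum_prod_type]
  simp only [Finset.sum_const, Finset.card_univ, Fintype.card_fin]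
  unfold isd
  push_cast
  rw [nsmul_eq_mul]
  push_cast
  ring

lemma vl_diff (a b : Fin 9) : (vl a - vl b) ^ 2 ≤ 1 / (1 / 72) := by
  have ha : ((a : ℕ) : ℝ) ≤ 8 := by exact_mod_cast Nat.lt_succ_iff.mp a.2
  have hb : ((b : ℕ) : ℝ) ≤ 8 := by exact_mod_cast Nat.lt_succ_iff.mp b.2
  have ha0 : (0 : ℝ) ≤ ((a : ℕ) : ℝ) := Nat.cast_nonneg _
  have hb0 : (0 : ℝ) ≤ ((b : ℕ) : ℝ) := Nat.cast_nonneg _
  unfold vl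
  norm_num
  nlinarith

set_option maxRecDepth 100000 in
/-- In some dimension every colouring has three points `x`, `m`, `y`, `m` the midpoint of `x` and
`y`, at distances 1, 1, 2 in one colour or in three colours. -/
theorem three_points (C : Type) : ∃ (ι : Type) (_ : Fintype ι), ∀ c : (ι → ℝ) → C,
    ∃ x m y : ι → ℝ, sq x m = 1 ∧ sq m y = 1 ∧ sq x y = 4 ∧
      ((c x = c m ∧ c m = c y) ∨ (c x ≠ c m ∧ c m ≠ c y ∧ c x ≠ c y)) := by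
  obtain ⟨ι, i, H⟩ := types (Pos := Fin 6 × Fin 10) (A := Fin 9) (C := C) vl (1 / 72)
    (by norm_num) vl_diff
  refine ⟨ι, i, fun c => ?_⟩
  by_contra hcon
  push Not at hcon
  have hc : NoRb c := by
    intro x m y h1 h2 h3
    by_contra hne
    push Not at hne
    exact hne.2.2 ((hcon x m y h1 h2 h3).2 hne.1 hne.2.1)
  obtain ⟨f, df, hf⟩ := H c hc
  have tr : ∀ X Y Z : Fin 10 → Fin 9, isd X Y = 12 → isd Y Z = 12 → isd X Z = 48 →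
      (c (f (wv X)) = c (f (wv Y)) ∨ c (f (wv Y)) = c (f (wv Z)) ∨ c (f (wv X)) = c (f (wv Z))) ∧
      ¬ (c (f (wv X)) = c (f (wv Y)) ∧ c (f (wv Y)) = c (f (wv Z))) := by
    intro X Y Z h1 h2 h3
    have e1 : sq (f (wv X)) (f (wv Y)) = 1 := by rw [df, wd_wv, h1]; norm_num
    have e2 : sq (f (wv Y)) (f (wv Z)) = 1 := by rw [df, wd_wv, h2]; norm_num
    have e3 : sq (f (wv X)) (f (wv Z)) = 4 := by rw [df, wd_wv, h3]; norm_num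
    refine ⟨hc _ _ _ e1 e2 e3, fun h => ?_⟩
    exact (hcon _ _ _ e1 e2 e3).1 h.1 h.2
  have same : ∀ X R : Fin 10 → Fin 9, cl (wv X) = cl (wv R) →
      c (f (wv X)) = c (f (wv R)) := fun X R h => hf _ _ h
  have h1 := tr ![8, 6, 5, 5, 5, 5, 7, 5, 4, 4] ![5, 5, 5, 5, 5, 5, 6, 4, 4, 4]
    ![2, 4, 5, 5, 5, 5, 5, 3, 4, 4] (by decide) (by decide) (by decide)
  rw [same ![8, 6, 5, 5, 5, 5, 7, 5, 4, 4] ![5, 5, 5, 5, 5, 6, 7, 8, 4, 4] (by unfold cl; decide),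
    same ![5, 5, 5, 5, 5, 5, 6, 4, 4, 4] ![5, 5, 5, 5, 5, 5, 6, 4, 4, 4] (by unfold cl; decide),
    same ![2, 4, 5, 5, 5, 5, 5, 3, 4, 4] ![5, 5, 5, 5, 5, 5, 6, 4, 4, 4] (by unfold cl; decide)] at h1
  have h2 := tr ![7, 5, 5, 5, 5, 3, 8, 6, 4, 4] ![5, 5, 5, 5, 5, 5, 8, 4, 4, 4]
    ![3, 5, 5, 5, 5, 7, 8, 2, 4, 4] (by decide) (by decide) (by decide)
  rw [same ![7, 5, 5, 5, 5, 3, 8, 6, 4, 4] ![5, 5, 5, 5, 5, 6, 7, 8, 4, 4] (by unfold cl; decide),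
    same ![5, 5, 5, 5, 5, 5, 8, 4, 4, 4] ![5, 5, 5, 5, 5, 5, 8, 4, 4, 4] (by unfold cl; decide),
    same ![3, 5, 5, 5, 5, 7, 8, 2, 4, 4] ![5, 5, 5, 5, 5, 6, 7, 8, 4, 4] (by unfold cl; decide)] at h2
  have h3 := tr ![8, 5, 5, 5, 5, 4, 7, 6, 5, 4] ![5, 5, 5, 5, 5, 5, 6, 6, 4, 4]
    ![2, 5, 5, 5, 5, 6, 5, 6, 3, 4] (by decide) (by decide) (by decide)
  rw [same ![8, 5, 5, 5, 5, 4, 7, 6, 5, 4] ![5, 5, 5, 5, 5, 6, 7, 8, 4, 4] (by unfold cl; decide),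
    same ![5, 5, 5, 5, 5, 5, 6, 6, 4, 4] ![5, 5, 5, 5, 5, 5, 6, 6, 4, 4] (by unfold cl; decide),
    same ![2, 5, 5, 5, 5, 6, 5, 6, 3, 4] ![5, 5, 5, 5, 5, 5, 6, 6, 6, 4] (by unfold cl; decide)] at h3
  have h4 := tr ![7, 7, 6, 5, 5, 4, 5, 5, 4, 4] ![5, 5, 5, 5, 5, 5, 6, 6, 4, 4]
    ![3, 3, 4, 5, 5, 6, 7, 7, 4, 4] (by decide) (by decide) (by decide)
  rw [same ![7, 7, 6, 5, 5, 4, 5, 5, 4, 4] ![5, 5, 5, 5, 6, 7, 7, 4, 4, 4] (by unfold cl; decide),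
    same ![5, 5, 5, 5, 5, 5, 6, 6, 4, 4] ![5, 5, 5, 5, 5, 5, 6, 6, 4, 4] (by unfold cl; decide),
    same ![3, 3, 4, 5, 5, 6, 7, 7, 4, 4] ![5, 5, 5, 5, 6, 7, 7, 4, 4, 4] (by unfold cl; decide)] at h4
  have h5 := tr ![7, 7, 5, 4, 6, 5, 5, 5, 4, 4] ![5, 5, 5, 5, 6, 4, 4, 4, 4, 4]
    ![3, 3, 5, 6, 6, 3, 3, 3, 4, 4] (by decide) (by decide) (by decide)
  rw [same ![7, 7, 5, 4, 6, 5, 5, 5, 4, 4] ![5, 5, 5, 5, 6, 7, 7, 4, 4, 4] (by unfold cl; decide),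
    same ![5, 5, 5, 5, 6, 4, 4, 4, 4, 4] ![5, 5, 5, 5, 6, 4, 4, 4, 4, 4] (by unfold cl; decide),
    same ![3, 3, 5, 6, 6, 3, 3, 3, 4, 4] ![5, 5, 5, 5, 5, 5, 6, 6, 4, 4] (by unfold cl; decide)] at h5
  have h6 := tr ![7, 7, 5, 5, 5, 5, 6, 4, 4, 4] ![5, 5, 5, 5, 5, 5, 4, 4, 4, 4]
    ![3, 3, 5, 5, 5, 5, 2, 4, 4, 4] (by decide) (by decide) (by decide)
  rw [same ![7, 7, 5, 5, 5, 5, 6, 4, 4, 4] ![5, 5, 5, 5, 6, 7, 7, 4, 4, 4] (by unfold cl; decide),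
    same ![5, 5, 5, 5, 5, 5, 4, 4, 4, 4] ![5, 5, 5, 5, 5, 5, 4, 4, 4, 4] (by unfold cl; decide),
    same ![3, 3, 5, 5, 5, 5, 2, 4, 4, 4] ![5, 5, 5, 5, 5, 5, 6, 4, 4, 4] (by unfold cl; decide)] at h6
  have h7 := tr ![7, 6, 5, 5, 8, 5, 5, 5, 4, 4] ![5, 5, 5, 5, 6, 4, 4, 4, 4, 4]
    ![3, 4, 5, 5, 4, 3, 3, 3, 4, 4] (by decide) (by decide) (by decide)
  rw [same ![7, 6, 5, 5, 8, 5, 5, 5, 4, 4] ![5, 5, 5, 5, 5, 6, 7, 8, 4, 4] (by unfold cl; decide),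
    same ![5, 5, 5, 5, 6, 4, 4, 4, 4, 4] ![5, 5, 5, 5, 6, 4, 4, 4, 4, 4] (by unfold cl; decide),
    same ![3, 4, 5, 5, 4, 3, 3, 3, 4, 4] ![5, 5, 5, 5, 5, 5, 4, 4, 4, 4] (by unfold cl; decide)] at h7
  have h8 := tr ![8, 5, 5, 5, 5, 4, 5, 5, 4, 4] ![5, 5, 5, 5, 5, 5, 4, 4, 4, 4]
    ![2, 5, 5, 5, 5, 6, 3, 3, 4, 4] (by decide) (by decide) (by decide)
  rw [same ![8, 5, 5, 5, 5, 4, 5, 5, 4, 4] ![5, 5, 5, 5, 5, 5, 8, 4, 4, 4] (by unfold cl; decide),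
    same ![5, 5, 5, 5, 5, 5, 4, 4, 4, 4] ![5, 5, 5, 5, 5, 5, 4, 4, 4, 4] (by unfold cl; decide),
    same ![2, 5, 5, 5, 5, 6, 3, 3, 4, 4] ![5, 5, 5, 5, 5, 5, 6, 6, 4, 4] (by unfold cl; decide)] at h8
  have h9 := tr ![7, 6, 5, 5, 5, 4, 7, 5, 4, 4] ![5, 5, 5, 5, 5, 5, 6, 6, 6, 4]
    ![3, 4, 5, 5, 5, 6, 5, 7, 8, 4] (by decide) (by decide) (by decide)
  rw [same ![7, 6, 5, 5, 5, 4, 7, 5, 4, 4] ![5, 5, 5, 5, 6, 7, 7, 4, 4, 4] (by unfold cl; decide),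
    same ![5, 5, 5, 5, 5, 5, 6, 6, 6, 4] ![5, 5, 5, 5, 5, 5, 6, 6, 6, 4] (by unfold cl; decide),
    same ![3, 4, 5, 5, 5, 6, 5, 7, 8, 4] ![5, 5, 5, 5, 5, 6, 7, 8, 4, 4] (by unfold cl; decide)] at h9
  have h10 := tr ![7, 7, 5, 5, 4, 4, 6, 5, 5, 4] ![5, 5, 5, 5, 5, 5, 6, 4, 4, 4]
    ![3, 3, 5, 5, 6, 6, 6, 3, 3, 4] (by decide) (by decide) (by decide)
  rw [same ![7, 7, 5, 5, 4, 4, 6, 5, 5, 4] ![5, 5, 5, 5, 6, 7, 7, 4, 4, 4] (by unfold cl; decide),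
    same ![5, 5, 5, 5, 5, 5, 6, 4, 4, 4] ![5, 5, 5, 5, 5, 5, 6, 4, 4, 4] (by unfold cl; decide),
    same ![3, 3, 5, 5, 6, 6, 6, 3, 3, 4] ![5, 5, 5, 5, 5, 5, 6, 6, 6, 4] (by unfold cl; decide)] at h10
  have h11 := tr ![5, 4, 4, 4, 8, 5, 5, 5, 5, 5] ![5, 5, 5, 5, 6, 4, 4, 4, 4, 4]
    ![5, 6, 6, 6, 4, 3, 3, 3, 3, 3] (by decide) (by decide) (by decide)
  rw [same ![5, 4, 4, 4, 8, 5, 5, 5, 5, 5] ![5, 5, 5, 5, 5, 5, 8, 4, 4, 4] (by unfold cl; decide),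
    same ![5, 5, 5, 5, 6, 4, 4, 4, 4, 4] ![5, 5, 5, 5, 6, 4, 4, 4, 4, 4] (by unfold cl; decide),
    same ![5, 6, 6, 6, 4, 3, 3, 3, 3, 3] ![5, 5, 5, 5, 5, 5, 6, 6, 6, 4] (by unfold cl; decide)] at h11
  have h12 := tr ![5, 5, 5, 5, 5, 5, 6, 6, 6, 4] ![5, 5, 5, 5, 5, 5, 4, 4, 4, 4]
    ![5, 5, 5, 5, 5, 5, 2, 2, 2, 4] (by decide) (by decide) (by decide)
  rw [same ![5, 5, 5, 5, 5, 5, 6, 6, 6, 4] ![5, 5, 5, 5, 5, 5, 6, 6, 6, 4] (by unfold cl; decide),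
    same ![5, 5, 5, 5, 5, 5, 4, 4, 4, 4] ![5, 5, 5, 5, 5, 5, 4, 4, 4, 4] (by unfold cl; decide),
    same ![5, 5, 5, 5, 5, 5, 2, 2, 2, 4] ![5, 5, 5, 5, 5, 5, 6, 6, 6, 4] (by unfold cl; decide)] at h12
  generalize c (f (wv ![5, 5, 5, 5, 5, 5, 4, 4, 4, 4])) = A' at *
  generalize c (f (wv ![5, 5, 5, 5, 6, 4, 4, 4, 4, 4])) = B' at *
  generalize c (f (wv ![5, 5, 5, 5, 5, 5, 6, 4, 4, 4])) = C' at *
  generalize c (f (wv ![5, 5, 5, 5, 5, 5, 6, 6, 4, 4])) = D' at *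
  generalize c (f (wv ![5, 5, 5, 5, 5, 5, 6, 6, 6, 4])) = E' at *
  generalize c (f (wv ![5, 5, 5, 5, 5, 5, 8, 4, 4, 4])) = F' at *
  generalize c (f (wv ![5, 5, 5, 5, 6, 7, 7, 4, 4, 4])) = G' at *
  generalize c (f (wv ![5, 5, 5, 5, 5, 6, 7, 8, 4, 4])) = H' at *
  clear tr same hcon
  grind

end Pool.Agent.N479.CL
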