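import Pool.Agent.N479.CR.Def

set_option autoImplicit false

/-! # Colourings without rainbow collinear triples on families with classes -/

namespace Pool.Agent.N479.CL

open Finset Pool.Agent.N479.ER Pool.Agent.N479.CR

/-- no three points `x`, `m`, `y`, `m` the midpoint, at distances 1, 1, 2 get three colours -/
def NoRb {C ι : Type} [Fintype ι] (c : (ι → ℝ) → C) : Prop :=
  ∀ x m y : ι → ℝ, sq x m = 1 → sq m y = 1 → sq x y = 4 → c x = c m ∨ c m = c y ∨ c x = c y

lemma NoRb.left {C ι κ : Type} [Fintype ι] [Fintype κ] {c : (ι ⊕ κ → ℝ) → C} (h : NoRb c)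
    (w : κ → ℝ) : NoRb (fun u => c (Sum.elim u w)) := by
  intro x m y h1 h2 h3
  exact h _ _ _ (by rw [sq_sumElim, sq_self, add_zero, h1])
    (by rw [sq_sumElim, sq_self, add_zero, h2]) (by rw [sq_sumElim, sq_self, add_zero, h3])

lemma NoRb.right {C ι κ : Type} [Fintype ι] [Fintype κ] {c : (ι ⊕ κ → ℝ) → C} (h : NoRb c)
    (u : ι → ℝ) : NoRb (fun w => c (Sum.elim u w)) := by
  intro x m y h1 h2 h3
  exact h _ _ _ (by rw [sq_sumElim, sq_self, zero_add, h1])
    (by rw [sq_sumElim, sq_self, zero_add, h2]) (by rw [sq_sumElim, sq_self, zero_add, h3])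

lemma sq_half {δ : Type} [Fintype δ] (u v : δ → ℝ) :
    sq u (fun i => (u i + v i) / 2) = sq u v / 4 ∧
      sq (fun i => (u i + v i) / 2) v = sq u v / 4 := by
  unfold ER.sq
  rw [Finset.sum_div]
  exact ⟨Finset.sum_congr rfl fun i _ => by ring, Finset.sum_congr rfl fun i _ => by ring⟩

/-- a square with diagonal 2 is not rainbow -/
lemma NoRb.square {C ι κ : Type} [Fintype ι] [Fintype κ] {c : (ι ⊕ κ → ℝ) → C} (hc : NoRb c)
    (u u' : ι → ℝ) (w w' : κ → ℝ) (hu : sq u u' = 2) (hw : sq w w' = 2) :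
    c (Sum.elim u w) = c (Sum.elim u' w') ∨ c (Sum.elim u' w) = c (Sum.elim u w') ∨
    c (Sum.elim u w) = c (Sum.elim u' w) ∨ c (Sum.elim u w) = c (Sum.elim u w') ∨
    c (Sum.elim u' w') = c (Sum.elim u' w) ∨ c (Sum.elim u' w') = c (Sum.elim u w') := by
  obtain ⟨a1, a2⟩ := sq_half u u'
  obtain ⟨b1, b2⟩ := sq_half w w'
  set z₁ : ι → ℝ := fun i => (u i + u' i) / 2 with hz₁
  set z₂ : κ → ℝ := fun i => (w i + w' i) / 2 with hz₂
  have a3 : sq u' z₁ = 1 / 2 := by rw [sq_comm, a2, hu]; norm_num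
  have a4 : sq z₁ u = 1 / 2 := by rw [sq_comm, a1, hu]; norm_num
  rw [hu] at a1 a2
  rw [hw] at b1 b2
  have h1 := hc (Sum.elim u w) (Sum.elim z₁ z₂) (Sum.elim u' w')
    (by rw [sq_sumElim, a1, b1]; norm_num) (by rw [sq_sumElim, a2, b2]; norm_num)
    (by rw [sq_sumElim, hu, hw]; norm_num)
  have h2 := hc (Sum.elim u' w) (Sum.elim z₁ z₂) (Sum.elim u w')
    (by rw [sq_sumElim, a3, b1]; norm_num) (by rw [sq_sumElim, a4, b2]; norm_num)
    (by rw [sq_sumElim, sq_comm, hu, hw]; norm_num)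
  rcases h1 with h1 | h1 | h1
  · rcases h2 with h2 | h2 | h2
    · exact Or.inr (Or.inr (Or.inl (h1.trans h2.symm)))
    · exact Or.inr (Or.inr (Or.inr (Or.inl (h1.trans h2))))
    · exact Or.inr (Or.inl h2)
  · rcases h2 with h2 | h2 | h2
    · exact Or.inr (Or.inr (Or.inr (Or.inr (Or.inl (h1.symm.trans h2.symm)))))
    · exact Or.inr (Or.inr (Or.inr (Or.inr (Or.inr (h1.symm.trans h2)))))
    · exact Or.inr (Or.inl h2)
  · exact Or.inl h1

/-- copies with all classes in one colour, for all finite palettes -/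
def GoodP {F T : Type} (D : F → F → ℝ) (P : F → T) : Prop :=
  ∀ (κ : Type) [Finite κ], ∃ (ι : Type) (_ : Fintype ι) (W : Finset (ι → ℝ)),
    ∀ h : (ι → ℝ) → κ, ∃ f : F → ι → ℝ, (∀ x, f x ∈ W) ∧ (∀ x y, sq (f x) (f y) = D x y) ∧
      ∀ x y, P x = P y → h (f x) = h (f y)

/-- the same, and the given colourings agree at pairs at squared distance 2 in the classes in `S` -/
def QS {F T : Type} (C : Type) (D : F → F → ℝ) (P : F → T) (S : Finset T) : Prop :=
  ∀ (κ Λ : Type) [Finite κ] [Finite Λ], ∃ (ι : Type) (_ : Fintype ι) (W : Finset (ι → ℝ)),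
    ∀ (h : (ι → ℝ) → κ) (c : Λ → (ι → ℝ) → C), (∀ l, NoRb (c l)) →
      ∃ f : F → ι → ℝ, (∀ x, f x ∈ W) ∧ (∀ x y, sq (f x) (f y) = D x y) ∧
        (∀ x y, P x = P y → h (f x) = h (f y)) ∧
        ∀ l x y, P x = P y → P x ∈ S → D x y = 2 → c l (f x) = c l (f y)

theorem many {F T C : Type} [Finite F] (D : F → F → ℝ) (P : F → T) (S : Finset T) (t₀ : F)
    (hQ : QS C D P S) (m : ℕ) :
    ∀ (κ Λ : Type) [Finite κ] [Finite Λ], ∃ (ι : Type) (_ : Fintype ι) (W : Finset (ι → ℝ)),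
    ∀ (h : (ι → ℝ) → κ) (c : Λ → (ι → ℝ) → C), (∀ l, NoRb (c l)) →
      ∃ (E : Fin m → F → ι → ℝ) (p : ι → ℝ), p ∈ W ∧ (∀ k, E k t₀ = p) ∧
        (∀ k x, E k x ∈ W) ∧ (∀ k x y, sq (E k x) (E k y) = D x y) ∧
        (∀ k x y, P x = P y → h (E k x) = h (E k y)) ∧
        (∀ l k x y, P x = P y → P x ∈ S → D x y = 2 → c l (E k x) = c l (E k y)) ∧
        ∀ l k k', k ≠ k' →
          (∃ x y, P x = P t₀ ∧ P y = P t₀ ∧ D x y = 2 ∧ c l (E k x) ≠ c l (E k y)) →
          (∃ x y, P x = P t₀ ∧ P y = P t₀ ∧ D x y = 2 ∧ c l (E k' x) ≠ c l (E k' y)) → False := by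
  classical
  induction m with
  | zero =>
    intro κ Λ _ _
    exact ⟨Empty, inferInstance, {0}, fun h c _ => ⟨fun k => k.elim0, 0, by simp,
      fun k => k.elim0, fun k => k.elim0, fun k => k.elim0, fun k => k.elim0,
      fun _ k => k.elim0, fun _ k => k.elim0⟩⟩
  | succ m ih =>
    intro κ Λ _ _
    obtain ⟨ι', i', W', H'⟩ := ih ((F → κ) × (Λ → F → F → Prop) × (Λ → F → F → Fin 3)) Λ
    obtain ⟨ι₁, i₁, W₁, H₁⟩ := hQ ((↥W' → κ) × (Λ → ↥W' → ↥W' → Prop)) (Λ × ↥W')
    refine ⟨ι₁ ⊕ ι', inferInstance, (W₁ ×ˢ W').image (fun p => Sum.elim p.1 p.2),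
      fun h c hc => ?_⟩
    obtain ⟨a, ma, da, ha, ta⟩ := H₁
      (fun u => (fun w => h (Sum.elim u w), fun l w w' =>
        c l (Sum.elim u (w : ι' → ℝ)) = c l (Sum.elim u (w' : ι' → ℝ))))
      (fun p u => c p.1 (Sum.elim u p.2)) (fun p => (hc p.1).left _)
    have ha1 : ∀ x y, P x = P y → ∀ w : ↥W', h (Sum.elim (a x) w) = h (Sum.elim (a y) w) :=
      fun x y hxy w => congrFun (congrArg Prod.fst (ha x y hxy)) w
    have ha2 : ∀ x y, P x = P y → ∀ l, ∀ w w' : ↥W',
        (c l (Sum.elim (a x) w) = c l (Sum.elim (a x) w') ↔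
          c l (Sum.elim (a y) w) = c l (Sum.elim (a y) w')) := fun x y hxy l w w' =>
      iff_of_eq (congrFun (congrFun (congrFun (congrArg Prod.snd (ha x y hxy)) l) w) w')
    have h3 : ∀ l x y, ∃ k : C → Fin 3, P x = P y → ∀ w w' : ↥W',
        k (c l (Sum.elim (a x) w)) = k (c l (Sum.elim (a x) w')) →
        c l (Sum.elim (a x) w) = c l (Sum.elim (a y) w') →
        c l (Sum.elim (a x) w) = c l (Sum.elim (a x) w') := by
      intro l x y
      by_cases hxy : P x = P y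
      · obtain ⟨k, hk⟩ := three (fun w : ↥W' => c l (Sum.elim (a x) w))
          (fun w : ↥W' => c l (Sum.elim (a y) w)) (ha2 x y hxy l)
        exact ⟨k, fun _ => hk⟩
      · exact ⟨fun _ => 0, fun h => absurd h hxy⟩
    choose k hk using h3
    obtain ⟨E, p, mp, Ep, mE, dE, hE, tE, bE⟩ := H'
      (fun w => (fun y => h (Sum.elim (a y) w),
        fun l x y => c l (Sum.elim (a x) w) = c l (Sum.elim (a y) w),
        fun l x y => k l x y (c l (Sum.elim (a x) w))))
      (fun l w => c l (Sum.elim (a t₀) w)) (fun l => (hc l).right _)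
    have hE1 : ∀ j x y, P x = P y → ∀ z, h (Sum.elim (a z) (E j x)) = h (Sum.elim (a z) (E j y)) :=
      fun j x y hxy z => congrFun (congrArg Prod.fst (hE j x y hxy)) z
    have hE2 : ∀ j x y, P x = P y → ∀ l z z', (c l (Sum.elim (a z) (E j x)) =
        c l (Sum.elim (a z') (E j x)) ↔ c l (Sum.elim (a z) (E j y)) =
        c l (Sum.elim (a z') (E j y))) := fun j x y hxy l z z' =>
      iff_of_eq (congrFun (congrFun (congrFun (congrArg (fun t => t.2.1) (hE j x y hxy)) l) z) z')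
    have hE3 : ∀ j x y, P x = P y → ∀ l z z', k l z z' (c l (Sum.elim (a z) (E j x))) =
        k l z z' (c l (Sum.elim (a z) (E j y))) := fun j x y hxy l z z' =>
      congrFun (congrFun (congrFun (congrArg (fun t => t.2.2) (hE j x y hxy)) l) z) z'
    -- the first factor and a later one are not both bad
    have key : ∀ l (j : Fin m),
        (∃ x y, P x = P t₀ ∧ P y = P t₀ ∧ D x y = 2 ∧
          c l (Sum.elim (a x) p) ≠ c l (Sum.elim (a y) p)) →
        (∃ x y, P x = P t₀ ∧ P y = P t₀ ∧ D x y = 2 ∧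
          c l (Sum.elim (a t₀) (E j x)) ≠ c l (Sum.elim (a t₀) (E j y))) → False := by
      rintro l j ⟨x, y, hx, hy, hxy, hne⟩ ⟨x', y', hx', hy', hxy', hne'⟩
      have sx : sq (a x) (a y) = 2 := (da x y).trans hxy
      have sx' : sq (E j x') (E j y') = 2 := (dE j x' y').trans hxy'
      have n1 : ∀ z, P z = P t₀ →
          c l (Sum.elim (a z) (E j x')) ≠ c l (Sum.elim (a z) (E j y')) := by
        intro z hz e
        exact hne' ((ha2 z t₀ hz l ⟨E j x', mE j x'⟩ ⟨E j y', mE j y'⟩).mp e)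
      have n2 : ∀ z, P z = P t₀ →
          c l (Sum.elim (a x) (E j z)) ≠ c l (Sum.elim (a y) (E j z)) := by
        intro z hz e
        have e1 := (hE2 j z t₀ hz l x y).mp e
        rw [Ep j] at e1
        exact hne e1
      rcases (hc l).square (a x) (a y) (E j x') (E j y') sx sx' with e | e | e | e | e | e
      · exact n1 x hx (hk l x y (hx.trans hy.symm) ⟨E j x', mE j x'⟩ ⟨E j y', mE j y'⟩
          (hE3 j x' y' (hx'.trans hy'.symm) l x y) e)
      · exact n1 x hx (hk l x y (hx.trans hy.symm) ⟨E j y', mE j y'⟩ ⟨E j x', mE j x'⟩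
          (hE3 j y' x' (hy'.trans hx'.symm) l x y) e.symm).symm
      · exact n2 x' hx' e
      · exact n1 x hx e
      · exact n1 y hy e.symm
      · exact n2 y' hy' e.symm
    refine ⟨Fin.cons (fun x => Sum.elim (a x) p) (fun j x => Sum.elim (a t₀) (E j x)),
      Sum.elim (a t₀) p, ?_, ?_, ?_, ?_, ?_, ?_, ?_⟩
    · exact Finset.mem_image.mpr ⟨(a t₀, p), Finset.mem_product.mpr ⟨ma _, mp⟩, rfl⟩
    · intro j
      refine Fin.cases ?_ (fun j => ?_) j
      · rfl
      · simp only [Fin.cons_succ]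
        rw [Ep j]
    · intro j x
      refine Fin.cases ?_ (fun j => ?_) j
      · exact Finset.mem_image.mpr ⟨(a x, p), Finset.mem_product.mpr ⟨ma _, mp⟩, rfl⟩
      · exact Finset.mem_image.mpr ⟨(a t₀, E j x), Finset.mem_product.mpr ⟨ma _, mE _ _⟩, rfl⟩
    · intro j x y
      refine Fin.cases ?_ (fun j => ?_) j
      · simp only [Fin.cons_zero]
        rw [sq_sumElim, sq_self, add_zero, da]
      · simp only [Fin.cons_succ]
        rw [sq_sumElim, sq_self, zero_add, dE]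
    · intro j x y hxy
      refine Fin.cases ?_ (fun j => ?_) j
      · exact ha1 x y hxy ⟨p, mp⟩
      · exact hE1 j x y hxy t₀
    · intro l j x y hxy hS hD
      refine Fin.cases ?_ (fun j => ?_) j
      · exact ta (l, ⟨p, mp⟩) x y hxy hS hD
      · exact tE l j x y hxy hS hD
    · intro l j j'
      refine Fin.cases ?_ (fun j => ?_) j
      · refine Fin.cases ?_ (fun j' => ?_) j'
        · intro h0
          exact absurd rfl h0
        · intro _ h1 h2
          exact key l j' h1 h2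
      · refine Fin.cases ?_ (fun j' => ?_) j'
        · intro _ h1 h2
          exact key l j h2 h1
        · intro hne h1 h2
          exact bE l j j' (fun e => hne (by rw [e])) h1 h2

theorem QS.insert {F T C : Type} [Finite F] [DecidableEq T] (D : F → F → ℝ) (P : F → T)
    (S : Finset T) (τ : T) (hQ : QS C D P S) : QS C D P (insert τ S) := by
  classical
  by_cases hτ : ∃ t₀, P t₀ = τ
  · obtain ⟨t₀, rfl⟩ := hτ
    intro κ Λ _ _
    have := Fintype.ofFinite Λ
    obtain ⟨ι, i, W, H⟩ := many D P S t₀ hQ (Fintype.card Λ + 1) κ Λ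
    refine ⟨ι, i, W, fun h c hc => ?_⟩
    obtain ⟨E, p, -, -, mE, dE, hE, tE, bE⟩ := H h c hc
    obtain ⟨k, hk⟩ : ∃ k, ∀ l, ¬ (∃ x y, P x = P t₀ ∧ P y = P t₀ ∧ D x y = 2 ∧
        c l (E k x) ≠ c l (E k y)) := by
      by_contra hcon
      push Not at hcon
      choose L hL using hcon
      have hinj : Function.Injective L := by
        intro k k' hkk
        by_contra hne
        obtain ⟨x, y, h1, h2, h3, h4⟩ := hL k
        obtain ⟨x', y', h1', h2', h3', h4'⟩ := hL k'
        exact bE (L k) k k' hne ⟨x, y, h1, h2, h3, h4⟩ ⟨x', y', h1', h2', h3', by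
          rw [hkk]; exact h4'⟩
      have := Fintype.card_le_of_injective L hinj
      simp at this
    refine ⟨E k, mE k, dE k, hE k, fun l x y hxy hS hD => ?_⟩
    rcases Finset.mem_insert.mp hS with hS | hS
    · by_contra hne
      exact hk l ⟨x, y, hS, hxy ▸ hS, hD, hne⟩
    · exact tE l k x y hxy hS hD
  · intro κ Λ _ _
    obtain ⟨ι, i, W, H⟩ := hQ κ Λ
    refine ⟨ι, i, W, fun h c hc => ?_⟩
    obtain ⟨f, mf, df, hf, tf⟩ := H h c hc
    refine ⟨f, mf, df, hf, fun l x y hxy hS hD => ?_⟩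
    rcases Finset.mem_insert.mp hS with hS | hS
    · exact absurd ⟨x, hS⟩ hτ
    · exact tf l x y hxy hS hD

/-- all classes -/
theorem classes {F T C : Type} [Finite F] (D : F → F → ℝ) (P : F → T) (hG : GoodP D P) :
    ∃ (ι : Type) (_ : Fintype ι), ∀ c : (ι → ℝ) → C, NoRb c →
      ∃ f : F → ι → ℝ, (∀ x y, sq (f x) (f y) = D x y) ∧
        ∀ x y, P x = P y → D x y = 2 → c (f x) = c (f y) := by
  classical
  have := Fintype.ofFinite F
  have h0 : QS C D P ∅ := by
    intro κ Λ _ _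
    obtain ⟨ι, i, W, H⟩ := hG κ
    refine ⟨ι, i, W, fun h c _ => ?_⟩
    obtain ⟨f, mf, df, hf⟩ := H h
    exact ⟨f, mf, df, hf, fun l x y _ hS _ => absurd hS (Finset.notMem_empty _)⟩
  have h1 : ∀ S : Finset T, QS C D P S := by
    intro S
    induction S using Finset.induction_on with
    | empty => exact h0
    | insert τ S _ ih => exact QS.insert D P S τ ih
  obtain ⟨ι, i, W, H⟩ := h1 (Finset.univ.image P) Unit Unit
  refine ⟨ι, i, fun c hc => ?_⟩
  obtain ⟨f, -, df, -, tf⟩ := H (fun _ => ()) (fun _ => c) (fun _ => hc)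
  exact ⟨f, df, fun x y hxy hD => tf () x y hxy (Finset.mem_image_of_mem _ (Finset.mem_univ _)) hD⟩

end Pool.Agent.N479.CL
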