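import Pool.Agent.N479.CL.Part
import Pool.Agent.H228R4.Blocks

set_option autoImplicit false

/-! # Words with the classes given by the multisets of letters -/

namespace Pool.Agent.N479.CL

open Finset Pool.Agent.N479.ER

lemma sum_count {N J A : Type} [Fintype N] [Fintype J] (t : N → J ⊕ A)
    (g : J ⊕ A → ℝ) (hg : ∀ a, g (Sum.inr a) = 0) :
    ∑ i, g (t i) = ∑ j, (H228R4.cnt t j : ℝ) * g (Sum.inl j) := by
  classical
  have h1 : ∀ i, g (t i) = ∑ j, (H228R4.ind (t i) j : ℝ) * g (Sum.inl j) := by
    intro i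
    cases t i with
    | inl j0 =>
      rw [Finset.sum_eq_single j0]
      · rw [H228R4.ind_inl]; simp
      · intro b _ hb
        rw [H228R4.ind_inl_ne (Ne.symm hb)]; simp
      · intro hh; exact absurd (Finset.mem_univ _) hh
    | inr a => simp [hg, H228R4.ind_inr]
  simp_rw [h1]
  rw [Finset.sum_comm]
  refine Finset.sum_congr rfl fun j _ => ?_
  rw [← Finset.sum_mul]
  unfold H228R4.cnt
  push_cast
  rfl

/-- the class of a word -/
def cl {Pos A : Type} [Fintype Pos] (z : Pos → A) : Multiset A := Multiset.map z Finset.univ.val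

/-- squared distance of words -/
noncomputable def wd {Pos A : Type} [Fintype Pos] (val : A → ℝ) (s : ℝ) (z z' : Pos → A) : ℝ :=
  s * ∑ p, (val (z p) - val (z' p)) ^ 2

theorem words_good {A Pos : Type} [Fintype A] [Nonempty A] [Fintype Pos] [Nonempty Pos]
    (val : A → ℝ) (s : ℝ) (hs : 0 ≤ s) : GoodP (wd (Pos := Pos) val s) cl := by
  classical
  intro κ _
  obtain ⟨l, hl⟩ : ∃ l, Fintype.card Pos = l + 1 :=
    ⟨Fintype.card Pos - 1, by have := Fintype.card_pos (α := Pos); omega⟩
  have e : Pos ≃ Fin (l + 1) := Fintype.equivFinOfCardEq hl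
  have eA : A ≃ Fin (Fintype.card A) := Fintype.equivFin A
  obtain ⟨d, hd, hblk⟩ := H228R4.blocks_aux (Fintype.card A) l Fintype.card_pos
  obtain ⟨n, hn⟩ := hblk (Nat.card κ)
  have eK : κ ≃ Fin (Nat.card κ) := Finite.equivFin κ
  let pt : (Fin n → Fin (Fintype.card A)) → Fin n → ℝ := fun z i =>
    Real.sqrt (s / d) * val (eA.symm (z i))
  refine ⟨Fin n, inferInstance, Finset.univ.image pt, fun h => ?_⟩
  obtain ⟨t, ht, hi⟩ := hn (fun z => eK (h (pt z)))
  let x : (Pos → A) → Fin (l + 1) → Fin (Fintype.card A) := fun z q => eA (z (e.symm q))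
  have hms : ∀ z, H228R4.ms (x z) = Multiset.map eA (cl z) := by
    intro z
    have h1 : (Finset.univ : Finset Pos).val = Multiset.map e.symm (Finset.univ : Finset (Fin (l + 1))).val := by
      have h2 : (Finset.univ : Finset Pos) = Finset.map e.symm.toEmbedding Finset.univ := by
        rw [Finset.map_univ_equiv]
      rw [h2]
      rfl
    unfold cl H228R4.ms
    rw [h1, Multiset.map_map, Multiset.map_map]
    rfl
  refine ⟨fun z => pt (H228R4.ev t (x z)), fun z => Finset.mem_image_of_mem _ (Finset.mem_univ _),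
    fun z z' => ?_, fun z z' hz => ?_⟩
  · let g : Fin (l + 1) ⊕ Fin (Fintype.card A) → ℝ :=
      Sum.elim (fun q => (s / d) * (val (z (e.symm q)) - val (z' (e.symm q))) ^ 2) (fun _ => 0)
    have hsd : 0 ≤ s / d := by positivity
    have h1 : ∀ i, (pt (H228R4.ev t (x z)) i - pt (H228R4.ev t (x z')) i) ^ 2 = g (t i) := by
      intro i
      simp only [pt]
      unfold H228R4.ev
      cases t i with
      | inl q =>
        simp only [Sum.elim_inl, g, x, Equiv.symm_apply_apply]
        rw [← mul_sub, mul_pow, Real.sq_sqrt hsd]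
      | inr a => simp [g]
    unfold ER.sq
    simp_rw [h1]
    rw [sum_count t g (fun a => rfl)]
    simp_rw [ht]
    simp only [g, Sum.elim_inl]
    unfold wd
    rw [Finset.mul_sum, ← Equiv.sum_comp e]
    refine Finset.sum_congr rfl fun p _ => ?_
    rw [Equiv.symm_apply_apply]
    have : (d : ℝ) ≠ 0 := by exact_mod_cast hd.ne'
    field_simp
  · have h1 := hi (x z) (x z') (by rw [hms, hms, hz])
    exact eK.injective h1

end Pool.Agent.N479.CL
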